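import Mathlib
import Pool.Agent.H8.HS.Final

/-!
# MP_ff17e6_an, Q1 for `n = 3` and every `p`, and for every `n` under a half section condition

Definitions used in the statement:
* `Pool/Agent/H82/Hp/Basic.lean`, `Pool/Agent/H82/Hp/Ext.lean`: `co f k` is the `k`-th Taylor
  coefficient of `f` at `0`, `Mp p f` is `M_p(f)`, `Np p` is the class `N_p` and `Fext p n c γ` is the
  function `F_{c,γ}`.
* `Pool/Agent/H8/HS/Main.lean`: `IsSqrt f S` says that `S` is the square root of `f / f(0)` with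
  `S(0) = 1`, `S = 1 + s₁ z + s₂ z² + …`; `hsec n S` is the half section
  `B(z) = ∑_{k < n/2} s_k z^k + [½ s_{n/2} z^{n/2} if n is even]`; `comp n S α` is the self-inversive
  polynomial `B(z) + α z^n conj (B (1 / conj z))`; `NpH p n` is the class of the functions `f ∈ N_p`
  for which all zeros of `comp n S α` lie on the unit circle, where `|α| = 1` and
  `a_n / a_0 = |a_n / a_0| α`.

Outline of the proof.
* Half sections (`Core.lean`, `Main.lean`, `Suff.lean`): if `G = comp n S α` has all its zeros on the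
  circle, then `T = |G|² / ‖G‖²` reproduces the coefficients of `f` up to `n / 2`, and the Gibbs inequality
  with the density `T` gives `|a_n| ≤ exp (-(1 - 1/p) ∫ T log T)`; the entropy of such a `T` is at least
  `1 - log 2`.
* `n = 3`: if `G = 1 + s₁ z + α conj s₁ z² + α z³` has a zero off the circle, then (`Surj.lean`)
  `s₁ = μ (1 + r coth r) + α μ⁻² r / sinh r` with `r > 0`, `|μ| = 1`. With `a = α μ⁻³`, `g = e^{-r}`,
  `b = r / sinh r` the density `T` is proportional to `|1 + w|² |1 + b (g + a) w + a g w²|²`, `w = μ z`.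
  Gibbs gives `|a_3| ≤ exp (Ent(T) / p - F₁(T))` (`Fib.lean`). Multiplication by the singular inner
  function `exp (-r (1 - w) / (1 + w))` is a contraction, and this gives `Ent(T) ≤ F₁(T)` (`Bes.lean`,
  `Three.lean`); and `1 - log 2 < F₁(T)` is an inequality in `r` and `Re a`, which by the strong
  convexity of `x log x` reduces to `a = ±1` (`Ineq.lean`, `Comb.lean`).
-/

set_option autoImplicit false

namespace Pool.Agent.H8.Kept.HalfSections

open Metric Set Pool.Agent.H82.Hp Pool.Agent.H8.HS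

/-- **Coefficients of non-vanishing `H^p` functions.** Let `1 < p` and `1/p + 1/q = 1`.
(1) `A_3(p) = (2/e)^{1/q}`, and the extremal functions are exactly the `F_{c,γ}`, `|c| = |γ| = 1`.
(2) For every `n ≥ 1` the same holds in the class `NpH p n`, and this class contains every
`f ∈ N_p` for which the half section of the square root of `f / f(0)` has no zero in the disc. -/
theorem result (p q : ℝ) (hp : 1 < p) (hpq : 1 / p + 1 / q = 1) :
    (IsGreatest ((fun f => ‖co f 3‖) '' Np p) ((2 / Real.exp 1) ^ (1 / q)) ∧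
      ∀ f ∈ Np p, ‖co f 3‖ = (2 / Real.exp 1) ^ (1 / q) ↔
        ∃ c γ : ℂ, ‖c‖ = 1 ∧ ‖γ‖ = 1 ∧ EqOn f (Fext p 3 c γ) (ball 0 1)) ∧
    ∀ n : ℕ, 1 ≤ n →
      IsGreatest ((fun f => ‖co f n‖) '' NpH p n) ((2 / Real.exp 1) ^ (1 / q)) ∧
      (∀ f ∈ NpH p n, ‖co f n‖ = (2 / Real.exp 1) ^ (1 / q) ↔
        ∃ c γ : ℂ, ‖c‖ = 1 ∧ ‖γ‖ = 1 ∧ EqOn f (Fext p n c γ) (ball 0 1)) ∧
      ∀ f ∈ Np p, ∀ S : ℂ → ℂ, IsSqrt f S → (∀ z ∈ ball (0 : ℂ) 1, hsec n S z ≠ 0) →
        f ∈ NpH p n := by
  refine ⟨three_result hp hpq, fun n hn => ?_⟩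
  obtain ⟨h1, h2⟩ := class_result hp hpq hn
  exact ⟨h1, h2, fun f hf S hS hB => mem_of_hsec hn hf hS hB⟩

end Pool.Agent.H8.Kept.HalfSections
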