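import Pool.Agent.H46.CHE.AllF

/-!
# The hierarchy of the spectra of two-variable logic with counting

The question of MP_64fb07_lc: is NE = coNE (the class `NE` is called NEXPTIME there)? Equivalently
(Jones, Selman): is the complement of the spectrum (the set of the sizes of the finite models) of a
first-order sentence always a spectrum? Here the logic speaks about arbitrary binary relations
together with a structure generated by a grammar: a sentence of counting monadic second-order logic
about the generated structure, and a sentence of two-variable logic with counting about everything.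
Complements of these spectra are spectra, and the languages of the spectra are in `E`. The classes of
generated structures form a hierarchy, like the regular languages, nondeterministic logarithmic space
and `LOGCFL` for languages over one letter, and for both widths all levels are exact:
* grammars with bijective changes of colours (ordered forests, nested equivalence relations),
  NLC-width `≤ 1` and linear NLC-width `≤ 2`: the spectra are eventually periodic;
* linear NLC-width `≤ k`, `k ≥ 3`: the languages are in nondeterministic linear space, and already one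
  sentence of monadic second-order logic (it says that a relation is the blow-up of a path) carries all
  of nondeterministic linear space;
* NLC-width `≤ k`, `k ≥ 2`: the languages are in the class `LCF` of alternating linear space with
  accepting trees of size `2 ^ O(n)`, and already one sentence of monadic second-order logic (it says
  that a relation is the blow-up of a rooted tree) carries all of `LCF`.
-/

set_option autoImplicit false

namespace Pool.Agent.Results.MP_64fb07_lc.SpectraHierarchy

open Pool.Agent.H69.Sp Pool.Agent.H69.Mt Pool.Agent.H8.VR Pool.Agent.H69.VR Pool.Agent.H8.JS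
open Pool.Agent.H8.DE Pool.Agent.H46.CH

theorem result :
    (∀ (N Q : Type) [Finite N] [Finite Q] (G : Gram N Q),
      (∀ o ∈ G.ops, IsSpectrum o.D ∧ IsSpectrum (posCompl o.D)) →
        ∀ (m : ℕ) (s₀ : N) (Ψ : MS) (φ : C2), Ψ.Below m →
          IsSpectrum (specM G m s₀ Ψ φ) ∧ IsSpectrum (posCompl (specM G m s₀ Ψ φ))) ∧
    (∀ (N Q : Type) [Finite N] [Finite Q] (G : Gram N Q), (∀ o ∈ G.ops, o.D = {n | 0 < n}) →
      ∀ (m : ℕ) (s₀ : N) (Ψ : MS) (φ : C2), Ψ.Below m →
        lang (specM G m s₀ Ψ φ) ∈ DE ∧ lang (specM G m s₀ Ψ φ) ∈ LCF ∧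
        ((∀ o ∈ G.ops, Function.Bijective o.f ∧ Function.Bijective o.g) →
          EvPer (specM G m s₀ Ψ φ))) ∧
    (∀ (Ψ : MS) (φ : C2), Ψ.Below 2 → EvPer (specFM Ψ φ)) ∧
    (∀ (k : ℕ) (Ψ : MS) (φ : C2), Ψ.Below k → EvPer (specEM k Ψ φ)) ∧
    (∀ (k m : ℕ) (Ψ : MS) (φ : C2), Ψ.Below m →
      IsSpectrum (specWM k m Ψ φ) ∧ IsSpectrum (posCompl (specWM k m Ψ φ)) ∧
      lang (specWM k m Ψ φ) ∈ DE ∧ lang (specWM k m Ψ φ) ∈ LCF ∧
      (k ≤ 1 → EvPer (specWM k m Ψ φ))) ∧
    (∃ Ψ : MS, Ψ.Below 1 ∧ (∀ (A : Type) [Finite A] [Nonempty A] (P : ℕ → A → Prop)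
        (R : ℕ → A → A → Prop), (∀ e V, Ψ.Sat P R e V) ↔ TreeBlowUp (R 0)) ∧
      ∀ L ∈ LCF, ∃ (φ : C2) (p : Polynomial ℤ), ∀ k ≥ 2, ∀ x : List Bool, ∃ y : List Bool,
        (num y : ℤ) = p.eval (num x : ℤ) ∧ (x ∈ L ↔ y ∈ lang (specWM k 1 Ψ φ))) ∧
    (∀ (k m : ℕ) (Ψ : MS) (φ : C2), Ψ.Below m →
      IsSpectrum (specLM k m Ψ φ) ∧ IsSpectrum (posCompl (specLM k m Ψ φ)) ∧
      lang (specLM k m Ψ φ) ∈ DE ∧ lang (specLM k m Ψ φ) ∈ NLIN ∧
      (k ≤ 2 → EvPer (specLM k m Ψ φ))) ∧
    ∃ Ψ : MS, Ψ.Below 1 ∧ (∀ (A : Type) [Finite A] [Nonempty A] (P : ℕ → A → Prop)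
        (R : ℕ → A → A → Prop), (∀ e V, Ψ.Sat P R e V) ↔ PathBlowUp (R 0)) ∧
      ∀ L ∈ NLIN, ∃ (φ : C2) (p : Polynomial ℤ), ∀ k ≥ 3, ∀ x : List Bool, ∃ y : List Bool,
        (num y : ℤ) = p.eval (num x : ℤ) ∧ (x ∈ L ↔ y ∈ lang (specLM k 1 Ψ φ)) :=
  Pool.Agent.H46.CHE.t_h3

end Pool.Agent.Results.MP_64fb07_lc.SpectraHierarchy
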